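import Mathlib
import Pool.Agent.H890.Wx6

/-!
MP_dd9dc3_ag, Q1: the boundary can be removed. Shokurov's index conjecture for pairs `(X, Δ)` with
coefficients in finite sets of rational numbers is equivalent to the one for varieties without
boundary.
-/

set_option autoImplicit false

namespace Pool.Agent.Results.MP_dd9dc3_ag.BoundaryRemovalIndex

open FF Pool.Agent.W602.GT Pool.Agent.Y172 Pool.Agent.R887 Pool.Agent.H890

/-- (1) Let `X` be a normal projective variety over `ℂ` of dimension `n ≥ 1` with function field `K`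
(`y` is its generic point, in homogeneous coordinates), `Δ` an effective `ℚ`-divisor such that `b Δ`
is integral, `b ≥ 2`, and let `x` be a point of `X` (the centre of a prime divisor `Q` over `X`) in the
support of `Δ` near which `Δ` is `ℚ`-Cartier. Then there is a normal projective variety `V` (without
boundary) of dimension `n + 2 b - 2`, with generic point `v` and function field `M`, birational to
`X × P ^ (2 b - 2)` (`M` is the field of rational functions in `2 b - 2` variables `t` over `K`), and a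
point `p` of `V` (the centre of `P`) such that `P` lies over `Q` and

* `p` has the same dimension as `x`, and it is a closed point if `x` is one;
* `mld_p (V) = mld_x (X, Δ) + 1 / b` if `mld_x (X, Δ) ≥ 0`;
* if `K_X + Δ` is `ℚ`-Cartier at `x` and `s K_V` is Cartier near `p`, then `2 b s (K_X + Δ)` is Cartier
  near `x`.

(2) Hence, for every set `Γ` of rational numbers with `b Γ ⊆ ℤ` and `ε ≥ 0`: if `I₁` is a bound for the
index of the varieties of dimension `n` with minimal log discrepancy `ε`, and `I₂` one for the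
varieties of dimension `n + 2 b - 2` with minimal log discrepancy `ε + 1 / b`, then `2 b I₁ I₂` is a
bound for the index of the pairs of dimension `n` with coefficients in `Γ` and minimal log
discrepancy `ε`.

(3) The index conjecture holds for the varieties without boundary in all dimensions (for all `ε`) if
and only if it holds for the pairs `(X, Δ)` with coefficients in `Γ` in all dimensions (for all `ε`)
and for all finite sets `Γ` of rational numbers. -/
theorem result :
    (∀ (K : Type) [Field K] [Algebra ℂ K] (n b N : ℕ) (y : Fin (N + 1) → K)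
      (Δ : Place ℂ K → ℚ) (Q : Place ℂ K), Algebra.trdeg ℂ K = n → 1 ≤ n → 2 ≤ b →
      NormalModel y → Effective y Δ → (∀ P, IsPrimeDivisor y P → ∃ m : ℤ, (b : ℚ) * Δ P = m) →
      Divisorial n Q → QCartierAt y Δ Q → InSupp y Δ Q →
      ∃ (M : Type) (_ : Field M) (_ : Algebra ℂ M) (_ : Algebra K M) (_ : IsScalarTower ℂ K M)
        (t : Fin (2 * b - 2) → M) (N' : ℕ) (v : Fin (N' + 1) → M) (P : Place ℂ M),
        AlgebraicIndependent K t ∧ IntermediateField.adjoin K (Set.range t) = ⊤ ∧
        NormalModel v ∧ Algebra.trdeg ℂ M = (n + (2 * b - 2) : ℕ) ∧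
        Divisorial (n + (2 * b - 2)) P ∧ (∃ e, Over P Q e) ∧
        (∀ d, CentreDim y Q d → CentreDim v P d) ∧ (ClosedPoint y Q → ClosedPoint v P) ∧
        (∀ c : ℚ, 0 ≤ c → IsMld y n Δ Q c → IsMld v (n + (2 * b - 2)) 0 P (c + 1 / b)) ∧
        ∀ (s : ℕ) (c : ℚ), 0 < s → H890.LogDisc y n Δ Q c →
          LogCartierAt v (n + (2 * b - 2)) 0 s P → LogCartierAt y n Δ (2 * b * s) Q) ∧
    (∀ (n b : ℕ) (Γ : Set ℚ) (ε : ℚ) (I₁ I₂ : ℕ), 2 ≤ b →
      (∀ γ ∈ Γ, ∃ m : ℤ, (b : ℚ) * γ = m) → 0 ≤ ε → 0 < I₂ → IndexBound n ∅ ε I₁ →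
      IndexBound (n + (2 * b - 2)) ∅ (ε + 1 / b) I₂ → IndexBound n Γ ε (I₁ * (2 * b * I₂))) ∧
    ((∀ n (ε : ℚ), 0 ≤ ε → ∃ I, 0 < I ∧ IndexBound n ∅ ε I) ↔
      ∀ n (Γ : Set ℚ), Γ.Finite → ∀ ε : ℚ, 0 ≤ ε → ∃ I, 0 < I ∧ IndexBound n Γ ε I) :=
  ⟨fun K _ _ _ _ _ _ _ _ hn hn1 hb hy hΔ hint hQ hcar hsup =>
    weil_removal_index K hb hn1 hn hy hΔ hint hQ hcar hsup,
    fun _ _ _ _ _ _ hb hΓ hε hI₂ h₁ h₂ => indexBound hb hΓ hε hI₂ h₁ h₂, index_iff_index⟩

end Pool.Agent.Results.MP_dd9dc3_ag.BoundaryRemovalIndex
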